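import Mathlib
import Pool.Agent.BakerK.Bounds

set_option autoImplicit false

/-!
Arithmetic over a number field: values of the family, integrality, Liouville's inequality and
Siegel's lemma.
-/

namespace Pool.Agent.BakerK

open Complex Finset Polynomial

/-! ### Liouville -/

/-- Liouville's inequality. -/
theorem liouville {K : Type*} [Field K] [NumberField K] (φ : K →+* ℂ) (α : K) (h0 : α ≠ 0)
    (hint : IsIntegral ℤ α) (B : ℝ) (hσ : ∀ σ : K →+* ℂ, ‖σ α‖ ≤ B) :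
    1 ≤ ‖φ α‖ * B ^ (Module.finrank ℚ K - 1) := by
  classical
  obtain ⟨z, hz⟩ := IsIntegrallyClosed.isIntegral_iff.1 (Algebra.isIntegral_norm ℚ hint)
  have hz0 : z ≠ 0 := by
    rintro rfl
    rw [map_zero] at hz
    exact (Algebra.norm_ne_zero_iff.2 h0) hz.symm
  have h1 : (1 : ℝ) ≤ ‖((z : ℤ) : ℂ)‖ := by
    rw [Complex.norm_intCast]
    exact_mod_cast Int.one_le_abs hz0
  have h2 := Algebra.norm_eq_prod_embeddings ℚ ℂ α
  rw [← hz] at h2
  have h3 : ((z : ℤ) : ℂ) = ∏ σ : K →ₐ[ℚ] ℂ, σ α := by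
    rw [← h2]
    simp
  have e : φ α = (φ.toRatAlgHom : K →ₐ[ℚ] ℂ) α := rfl
  rw [h3, norm_prod, ← Finset.mul_prod_erase _ _ (Finset.mem_univ (φ.toRatAlgHom : K →ₐ[ℚ] ℂ)),
    ← e] at h1
  refine h1.trans (mul_le_mul_of_nonneg_left ?_ (norm_nonneg _))
  have h4 : (Finset.univ.erase (φ.toRatAlgHom : K →ₐ[ℚ] ℂ)).card = Module.finrank ℚ K - 1 := by
    rw [Finset.card_erase_of_mem (Finset.mem_univ _), Finset.card_univ, AlgHom.card]
  rw [← h4, ← Finset.prod_const]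
  exact Finset.prod_le_prod (fun _ _ => norm_nonneg _) fun σ _ => hσ (σ : K →+* ℂ)

/-! ### Siegel -/

section siegel

attribute [local instance] Matrix.seminormedAddCommGroup

open NumberField NumberField.house in
/-- Coordinates of algebraic integers are bounded in terms of the conjugates. -/
theorem exists_coord (K : Type*) [Field K] [NumberField K] :
    ∃ C : ℝ, 1 ≤ C ∧ ∃ r : (K →+* ℂ) → 𝓞 K →+ ℤ, (∀ x : 𝓞 K, (∀ i, r i x = 0) → x = 0) ∧
      ∀ (x : 𝓞 K) (A : ℝ), 0 ≤ A → (∀ σ : K →+* ℂ, ‖σ (x : K)‖ ≤ A) → ∀ i, |((r i x : ℤ) : ℝ)| ≤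
        C * A := by
  classical
  have key : ∃ C : ℝ, ∀ (x : 𝓞 K) (i : K →+* ℂ),
      ‖(((integralBasis K).reindex (NumberField.equivReindex K).symm).repr x i : ℂ)‖ ≤
        C * house (algebraMap (𝓞 K) K x) := ⟨_, basis_repr_norm_le_const_mul_house K⟩
  obtain ⟨C, hC⟩ := key
  let b := (RingOfIntegers.basis K).reindex (NumberField.equivReindex K).symm
  refine ⟨max 1 C, le_max_left _ _, fun i => (b.coord i : 𝓞 K →ₗ[ℤ] ℤ).toAddMonoidHom, ?_, ?_⟩
  · intro x hx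
    apply b.ext_elem
    intro i
    have := hx i
    simpa using this
  · intro x A hA hσ i
    have h1 := hC x i
    have h2 : house (algebraMap (𝓞 K) K x) ≤ A := by
      rw [house_eq_sup']
      have : (univ.sup' univ_nonempty (fun φ : K →+* ℂ ↦ ‖φ (algebraMap (𝓞 K) K x)‖₊)) ≤
          A.toNNReal := by
        apply Finset.sup'_le
        intro σ _
        rw [← NNReal.coe_le_coe, Real.coe_toNNReal _ hA]
        exact hσ σ
      calc _ ≤ ((A.toNNReal : NNReal) : ℝ) := by exact_mod_cast this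
        _ = A := Real.coe_toNNReal _ hA
    have h3 : (((integralBasis K).reindex (NumberField.equivReindex K).symm).repr x i : ℂ) =
        ((b.repr x i : ℤ) : ℂ) := by
      simp [b, integralBasis_repr_apply]
    rw [h3, Complex.norm_intCast] at h1
    have h4 : 0 ≤ house (algebraMap (𝓞 K) K x) := house_nonneg _
    calc |((b.repr x i : ℤ) : ℝ)| ≤ C * house (algebraMap (𝓞 K) K x) := h1
      _ ≤ max 1 C * house (algebraMap (𝓞 K) K x) := by gcongr; exact le_max_right _ _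
      _ ≤ max 1 C * A := by gcongr

open NumberField in
/-- Siegel's lemma in the form we need. -/
theorem siegel (K : Type*) [Field K] [NumberField K] : ∃ C : ℝ, 1 ≤ C ∧
    ∀ {α β : Type} [Fintype α] [Fintype β] [Nonempty α] (g : α → β → 𝓞 K),
    2 * (Fintype.card α * Module.finrank ℚ K) ≤ Fintype.card β →
    ∀ A : ℝ, 1 ≤ A → (∀ i j, ∀ σ : K →+* ℂ, ‖σ ((g i j : 𝓞 K) : K)‖ ≤ A) →
    ∃ p : β → ℤ, p ≠ 0 ∧ (∀ i, ∑ j, (p j : 𝓞 K) * g i j = 0) ∧
      ∀ j, |(p j : ℝ)| ≤ Fintype.card β * (C * A) := by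
  classical
  obtain ⟨C, hC1, r, hr0, hr⟩ := exists_coord K
  refine ⟨C, hC1, ?_⟩
  intro α β _ _ _ g hcard A hA hg
  let M : Matrix (α × (K →+* ℂ)) β ℤ := fun i j => r i.2 (g i.1 j)
  have hcα : 0 < Fintype.card α := Fintype.card_pos
  have hn : 0 < Module.finrank ℚ K := Module.finrank_pos
  have hc : Fintype.card (α × (K →+* ℂ)) = Fintype.card α * Module.finrank ℚ K := by
    rw [Fintype.card_prod, Embeddings.card]
  have h0 : 0 < Fintype.card α * Module.finrank ℚ K := Nat.mul_pos hcα hn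
  have h1 : Fintype.card (α × (K →+* ℂ)) < Fintype.card β := by rw [hc]; omega
  have h2 : 0 < Fintype.card (α × (K →+* ℂ)) := by rw [hc]; omega
  obtain ⟨t, ht0, htM, htn⟩ := Int.Matrix.exists_ne_zero_int_vec_norm_le M h1 h2
  have hCA : 1 ≤ C * A := one_le_mul_of_one_le_of_one_le hC1 hA
  have hMn : ‖M‖ ≤ C * A := by
    rw [Matrix.norm_le_iff (by linarith)]
    rintro ⟨i, c⟩ j
    rw [Int.norm_eq_abs]
    exact hr (g i j) A (by linarith) (hg i j) c
  have hβ : (1 : ℝ) ≤ Fintype.card β := by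
    have : 1 ≤ Fintype.card β := by omega
    exact_mod_cast this
  have hbase : (1 : ℝ) ≤ Fintype.card β * max 1 ‖M‖ := by
    have : (1 : ℝ) ≤ max 1 ‖M‖ := le_max_left _ _
    nlinarith
  have hexp : ((Fintype.card (α × (K →+* ℂ)) : ℕ) : ℝ) /
      ((Fintype.card β : ℝ) - (Fintype.card (α × (K →+* ℂ)) : ℕ)) ≤ 1 := by
    have h4 : (2 : ℝ) * (Fintype.card (α × (K →+* ℂ)) : ℕ) ≤ Fintype.card β := by
      rw [hc]; exact_mod_cast hcard
    have h5 : (0 : ℝ) < (Fintype.card (α × (K →+* ℂ)) : ℕ) := by exact_mod_cast h2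
    rw [div_le_one (by linarith)]
    linarith
  have hn' : ‖t‖ ≤ Fintype.card β * (C * A) := by
    refine htn.trans ?_
    calc ((Fintype.card β : ℝ) * max 1 ‖M‖) ^ (((Fintype.card (α × (K →+* ℂ)) : ℕ) : ℝ) /
          ((Fintype.card β : ℝ) - (Fintype.card (α × (K →+* ℂ)) : ℕ)))
        ≤ ((Fintype.card β : ℝ) * max 1 ‖M‖) ^ (1 : ℝ) :=
          Real.rpow_le_rpow_of_exponent_le hbase hexp
      _ = (Fintype.card β : ℝ) * max 1 ‖M‖ := Real.rpow_one _
      _ ≤ Fintype.card β * (C * A) := by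
          gcongr
          exact max_le hCA hMn
  refine ⟨t, ht0, fun i => ?_, fun j => ?_⟩
  · apply hr0
    intro c
    have h5 : ∑ j, M (i, c) j * t j = 0 := congrFun htM (i, c)
    rw [map_sum, ← h5]
    refine Finset.sum_congr rfl fun j _ => ?_
    have e : ((t j : 𝓞 K)) * g i j = t j • g i j := by rw [zsmul_eq_mul]
    rw [e, map_zsmul, smul_eq_mul, mul_comm]
  · have := norm_le_pi_norm t j
    rw [Int.norm_eq_abs] at this
    exact this.trans hn'

end siegel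

/-! ### Values -/

section val

variable {A : Type*} [CommRing A] {m D0 D1 : ℕ}

/-- The value of a term at the integer `s`, over an arbitrary commutative ring. -/
noncomputable def val (be : Fin m → A) (be0 : A) (al : Fin m → A) (am : A) (k : Idx m D0 D1)
    (σ : Option (Fin m) → ℕ) (s : ℕ) : A :=
  (∏ j, (((k.2.1 j : ℕ) : A) + ((k.2.2 : ℕ) : A) * be j) ^ σ (some j)) *
    (upoly (((k.2.2 : ℕ) : A) * be0) (σ none) (k.1 : ℕ)).eval (s : A) *
    ((∏ j, al j ^ ((k.2.1 j : ℕ) * s)) * am ^ ((k.2.2 : ℕ) * s))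

theorem map_val {A' : Type*} [CommRing A'] (f : A →+* A') (be : Fin m → A) (be0 : A)
    (al : Fin m → A) (am : A) (k : Idx m D0 D1) (σ : Option (Fin m) → ℕ) (s : ℕ) :
    f (val be be0 al am k σ s) = val (fun j => f (be j)) (f be0) (fun j => f (al j)) (f am)
      k σ s := by
  unfold val
  rw [map_mul, map_mul, map_mul, map_prod, map_prod, map_pow]
  congr 1
  · congr 1
    · refine Finset.prod_congr rfl fun j _ => ?_
      rw [map_pow, map_add, map_mul, map_natCast, map_natCast]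
    · rw [show f ((upoly (((k.2.2 : ℕ) : A) * be0) (σ none) (k.1 : ℕ)).eval (s : A)) =
        ((upoly (((k.2.2 : ℕ) : A) * be0) (σ none) (k.1 : ℕ)).map f).eval (f (s : A)) from
        (Polynomial.eval_map_apply _ _).symm, map_upoly, map_mul, map_natCast, map_natCast]
  · congr 1
    exact Finset.prod_congr rfl fun j _ => map_pow _ _ _

theorem pow_mul_mem (O : Subring A) {b : ℕ} {x : A} {e T : ℕ} (h : (b : A) ^ e * x ∈ O)
    (he : e ≤ T) : (b : A) ^ T * x ∈ O := by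
  obtain ⟨d, rfl⟩ := Nat.exists_eq_add_of_le he
  rw [add_comm e d, pow_add, mul_assoc]
  exact O.mul_mem (pow_mem (natCast_mem O b) _) h

theorem upoly_coeff_mem (O : Subring A) {b : ℕ} {c : A} (hc : (b : A) * c ∈ O) (k0 σ : ℕ) :
    ∀ i, (b : A) ^ σ * (upoly c σ k0).coeff i ∈ O := by
  induction σ with
  | zero =>
    intro i
    rw [upoly_zero, coeff_X_pow, pow_zero, one_mul]
    split_ifs
    · exact O.one_mem
    · exact O.zero_mem
  | succ σ ih =>
    intro i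
    rw [upoly_succ, coeff_add, coeff_derivative, coeff_C_mul]
    have e : (b : A) ^ (σ + 1) * ((upoly c σ k0).coeff (i + 1) * ((i : A) + 1) +
        c * (upoly c σ k0).coeff i) =
        (b : A) * ((i + 1 : ℕ) : A) * ((b : A) ^ σ * (upoly c σ k0).coeff (i + 1)) +
        ((b : A) * c) * ((b : A) ^ σ * (upoly c σ k0).coeff i) := by
      push_cast
      ring
    rw [e]
    exact O.add_mem (O.mul_mem (O.mul_mem (natCast_mem O _) (natCast_mem O _)) (ih _))
      (O.mul_mem hc (ih _))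

theorem upoly_eval_mem (O : Subring A) {b : ℕ} {c : A} (hc : (b : A) * c ∈ O) (k0 σ s : ℕ) :
    (b : A) ^ σ * (upoly c σ k0).eval (s : A) ∈ O := by
  rw [eval_eq_sum_range, Finset.mul_sum]
  refine O.sum_mem fun i _ => ?_
  rw [← mul_assoc]
  exact O.mul_mem (upoly_coeff_mem O hc k0 σ i) (pow_mem (natCast_mem O s) _)

/-- The common denominator of the values. -/
def den (a b m T D1 S : ℕ) : ℕ := (b ^ T) ^ (m + 1) * (a ^ (D1 * S)) ^ (m + 1)

theorem den_pos {a b : ℕ} (ha : 0 < a) (hb : 0 < b) (m T D1 S : ℕ) : 0 < den a b m T D1 S :=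
  Nat.mul_pos (pow_pos (pow_pos hb _) _) (pow_pos (pow_pos ha _) _)

theorem den_mul_val_mem (O : Subring A) {a b : ℕ} {be : Fin m → A} {be0 : A}
    {al : Fin m → A} {am : A} (hbe : ∀ j, (b : A) * be j ∈ O) (hbe0 : (b : A) * be0 ∈ O)
    (hal : ∀ j, (a : A) * al j ∈ O) (ham : (a : A) * am ∈ O) (k : Idx m D0 D1)
    (σ : Option (Fin m) → ℕ) (T S s : ℕ)
    (hσ : ∀ i, σ i ≤ T) (hs : s ≤ S) :
    (den a b m T D1 S : A) * val be be0 al am k σ s ∈ O := by
  have h1 : (∏ j, ((b : A) ^ T * (((k.2.1 j : ℕ) : A) + ((k.2.2 : ℕ) : A) * be j) ^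
      σ (some j))) ∈ O := by
    refine O.prod_mem fun j _ => ?_
    refine pow_mul_mem O (e := σ (some j)) ?_ (hσ _)
    rw [← mul_pow]
    refine pow_mem ?_ _
    have e : (b : A) * (((k.2.1 j : ℕ) : A) + ((k.2.2 : ℕ) : A) * be j) =
        (b : A) * ((k.2.1 j : ℕ) : A) + ((k.2.2 : ℕ) : A) * ((b : A) * be j) := by ring
    rw [e]
    exact O.add_mem (O.mul_mem (natCast_mem O _) (natCast_mem O _))
      (O.mul_mem (natCast_mem O _) (hbe j))
  have h2 : (b : A) ^ T * (upoly (((k.2.2 : ℕ) : A) * be0) (σ none) (k.1 : ℕ)).eval (s : A) ∈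
      O := by
    refine pow_mul_mem O (e := σ none) ?_ (hσ _)
    refine upoly_eval_mem O ?_ _ _ _
    have e : (b : A) * (((k.2.2 : ℕ) : A) * be0) =
        ((k.2.2 : ℕ) : A) * ((b : A) * be0) := by ring
    rw [e]
    exact O.mul_mem (natCast_mem O _) hbe0
  have hle : ∀ c : Fin D1, (c : ℕ) * s ≤ D1 * S := fun c =>
    Nat.mul_le_mul c.2.le hs
  have h3 : (∏ j, ((a : A) ^ (D1 * S) * al j ^ ((k.2.1 j : ℕ) * s))) ∈ O := by
    refine O.prod_mem fun j _ => ?_
    refine pow_mul_mem O (e := (k.2.1 j : ℕ) * s) ?_ (hle _)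
    rw [← mul_pow]
    exact pow_mem (hal j) _
  have h4 : (a : A) ^ (D1 * S) * am ^ ((k.2.2 : ℕ) * s) ∈ O := by
    refine pow_mul_mem O (e := (k.2.2 : ℕ) * s) ?_ (hle _)
    rw [← mul_pow]
    exact pow_mem ham _
  have e : (den a b m T D1 S : A) * val be be0 al am k σ s =
      ((∏ j, ((b : A) ^ T * (((k.2.1 j : ℕ) : A) + ((k.2.2 : ℕ) : A) * be j) ^
        σ (some j))) * ((b : A) ^ T *
          (upoly (((k.2.2 : ℕ) : A) * be0) (σ none) (k.1 : ℕ)).eval (s : A))) *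
      ((∏ j, ((a : A) ^ (D1 * S) * al j ^ ((k.2.1 j : ℕ) * s))) *
        ((a : A) ^ (D1 * S) * am ^ ((k.2.2 : ℕ) * s))) := by
    unfold den val
    rw [Finset.prod_mul_distrib, Finset.prod_mul_distrib, Finset.prod_const,
      Finset.prod_const, Finset.card_univ, Fintype.card_fin]
    push_cast
    ring
  rw [e]
  exact O.mul_mem (O.mul_mem h1 h2) (O.mul_mem h3 h4)

end val

/-- Bound for the values over `ℂ`. -/
theorem norm_val_le {m D0 D1 : ℕ} {be : Fin m → ℂ} {be0 : ℂ} {al : Fin m → ℂ} {am : ℂ}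
    {bd h : ℝ} (hbe : ∀ j, ‖be j‖ ≤ bd) (hbe0 : ‖be0‖ ≤ bd) (hh : 0 ≤ h)
    (hal : ∀ j, ‖al j‖ ≤ Real.exp h) (ham : ‖am‖ ≤ Real.exp h) (k : Idx m D0 D1)
    (σ : Option (Fin m) → ℕ) {T : ℕ} (hσ : ∀ i, σ i ≤ T) {X R : ℝ} (hX : 1 ≤ X)
    (hX' : D1 * (1 + bd) + D0 ≤ X) (hR : 1 ≤ R) {s : ℕ} (hs : (s : ℝ) ≤ R) :
    ‖val be be0 al am k σ s‖ ≤ X ^ ((m + 1) * T) * R ^ D0 *
      Real.exp ((m + 1) * h * (D1 * R)) := by
  have hb : 0 ≤ bd := (norm_nonneg _).trans hbe0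
  have hX0 : 0 ≤ X := by linarith
  have hD0 : (0 : ℝ) ≤ D0 := by positivity
  have hD1 : (0 : ℝ) ≤ D1 := by positivity
  have hk2 : ((k.2.2 : ℕ) : ℝ) ≤ D1 := by exact_mod_cast (k.2.2).2.le
  have hz : ‖((s : ℕ) : ℂ)‖ ≤ R := by rw [Complex.norm_natCast]; exact hs
  have h1 : ‖∏ j, (((k.2.1 j : ℕ) : ℂ) + ((k.2.2 : ℕ) : ℂ) * be j) ^ σ (some j)‖ ≤
      X ^ (m * T) := by
    rw [norm_prod]
    calc (∏ j, ‖(((k.2.1 j : ℕ) : ℂ) + ((k.2.2 : ℕ) : ℂ) * be j) ^ σ (some j)‖)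
        ≤ ∏ _j : Fin m, X ^ T := by
          refine Finset.prod_le_prod (fun _ _ => norm_nonneg _) fun j _ => ?_
          rw [norm_pow]
          have h2 : ‖((k.2.1 j : ℕ) : ℂ) + ((k.2.2 : ℕ) : ℂ) * be j‖ ≤ X := by
            refine (norm_add_le _ _).trans ?_
            rw [norm_mul, Complex.norm_natCast, Complex.norm_natCast]
            have h3 : ((k.2.1 j : ℕ) : ℝ) ≤ D1 := by exact_mod_cast (k.2.1 j).2.le
            have h4 := hbe j
            have h5 : ((k.2.2 : ℕ) : ℝ) * ‖be j‖ ≤ D1 * bd := by gcongr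
            nlinarith
          calc ‖((k.2.1 j : ℕ) : ℂ) + ((k.2.2 : ℕ) : ℂ) * be j‖ ^ σ (some j)
              ≤ X ^ σ (some j) := by gcongr
            _ ≤ X ^ T := pow_le_pow_right₀ hX (hσ _)
      _ = X ^ (m * T) := by
          rw [Finset.prod_const, Finset.card_univ, Fintype.card_fin, ← pow_mul, mul_comm]
  have h2 : ‖(upoly (((k.2.2 : ℕ) : ℂ) * be0) (σ none) (k.1 : ℕ)).eval ((s : ℕ) : ℂ)‖ ≤
      X ^ T * R ^ D0 := by
    refine (norm_eval_le (D := D0) (fun i hi => upoly_coeff_eq_zero _ _ _ i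
      (lt_of_lt_of_le k.1.2 hi)) hz).trans ((pn_upoly_le hR _ _ k.1.2).trans ?_)
    have h3 : (D0 : ℝ) + ‖((k.2.2 : ℕ) : ℂ) * be0‖ ≤ X := by
      rw [norm_mul, Complex.norm_natCast]
      have h5 : ((k.2.2 : ℕ) : ℝ) * ‖be0‖ ≤ D1 * bd := by gcongr
      nlinarith
    have h4 : ((D0 : ℝ) + ‖((k.2.2 : ℕ) : ℂ) * be0‖) ^ σ none ≤ X ^ T :=
      (pow_le_pow_left₀ (by positivity) h3 _).trans (pow_le_pow_right₀ hX (hσ _))
    gcongr
  have hpw : ∀ (c : Fin D1) (w : ℂ), ‖w‖ ≤ Real.exp h →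
      ‖w ^ ((c : ℕ) * s)‖ ≤ Real.exp (h * (D1 * R)) := by
    intro c w hw
    rw [norm_pow]
    calc ‖w‖ ^ ((c : ℕ) * s) ≤ (Real.exp h) ^ ((c : ℕ) * s) :=
          pow_le_pow_left₀ (norm_nonneg _) hw _
      _ = Real.exp ((((c : ℕ) * s : ℕ) : ℝ) * h) := by rw [Real.exp_nat_mul]
      _ ≤ Real.exp (h * (D1 * R)) := by
          apply Real.exp_le_exp.2
          push_cast
          have h6 : ((c : ℕ) : ℝ) ≤ D1 := by exact_mod_cast c.2.le
          have h7 : ((c : ℕ) : ℝ) * s ≤ D1 * R := by gcongr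
          calc ((c : ℕ) : ℝ) * s * h ≤ (D1 * R) * h := by gcongr
            _ = h * (D1 * R) := by ring
  have h3 : ‖(∏ j, al j ^ ((k.2.1 j : ℕ) * s)) * am ^ ((k.2.2 : ℕ) * s)‖ ≤
      Real.exp ((m + 1) * h * (D1 * R)) := by
    rw [norm_mul, norm_prod]
    calc (∏ j, ‖al j ^ ((k.2.1 j : ℕ) * s)‖) * ‖am ^ ((k.2.2 : ℕ) * s)‖
        ≤ (∏ _j : Fin m, Real.exp (h * (D1 * R))) * Real.exp (h * (D1 * R)) := by
          refine mul_le_mul (Finset.prod_le_prod (fun _ _ => norm_nonneg _) fun j _ =>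
            hpw _ _ (hal j)) (hpw _ _ ham) (norm_nonneg _) (by positivity)
      _ = Real.exp ((m + 1) * h * (D1 * R)) := by
          rw [Finset.prod_const, Finset.card_univ, Fintype.card_fin, ← Real.exp_nat_mul,
            ← Real.exp_add]
          congr 1
          ring
  unfold val
  rw [norm_mul, norm_mul]
  calc _ ≤ X ^ (m * T) * (X ^ T * R ^ D0) * Real.exp ((m + 1) * h * (D1 * R)) := by gcongr
    _ = X ^ ((m + 1) * T) * R ^ D0 * Real.exp ((m + 1) * h * (D1 * R)) := by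
      rw [show (m + 1) * T = m * T + T by ring, pow_add]
      ring

end Pool.Agent.BakerK
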