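import Mathlib
import Pool.Agent.BakerK.Bounds
import Pool.Agent.BakerQi.ExpSum

set_option autoImplicit false

/-!
The last step of Baker's method: too many zeros force all coefficients to vanish.
-/

namespace Pool.Agent.BakerK

open Complex Finset Polynomial Pool.Agent.BakerQi

theorem upoly_coeff_self (c : ℂ) (σ k0 : ℕ) : (upoly c σ k0).coeff k0 = c ^ σ := by
  induction σ with
  | zero => rw [upoly_zero, coeff_X_pow, if_pos rfl, pow_zero]
  | succ σ ih =>
    rw [upoly_succ, coeff_add, coeff_derivative, coeff_C_mul, ih,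
      upoly_coeff_eq_zero c σ k0 _ (Nat.lt_succ_self _), zero_mul, zero_add, pow_succ, mul_comm]

namespace Base

variable (B : Base) {D0 D1 : ℕ}

theorem card_Idx : Fintype.card (Idx B.m D0 D1) = D0 * (D1 ^ B.m * D1) := by
  simp [Idx]

/-- The multiplicative frequency. -/
noncomputable def theta (k : Idx B.m D0 D1) : ℂ := exp (B.freq k)

theorem theta_eq (k : Idx B.m D0 D1) : B.theta k =
    (∏ j, exp (B.lam j) ^ (k.2.1 j : ℕ)) * exp B.mu ^ (k.2.2 : ℕ) := by
  have := B.exp_freq_nat k 1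
  simpa [theta] using this

theorem theta_inj {k l : Idx B.m D0 D1} (h : B.theta k = B.theta l) (h2 : k.2.2 = l.2.2) :
    k.2.1 = l.2.1 := by
  rw [theta_eq, theta_eq, h2] at h
  have h3 := mul_right_cancel₀ (pow_ne_zero _ (exp_ne_zero B.mu)) h
  have h4 := B.indep (fun j => (k.2.1 j : ℕ)) (fun j => (l.2.1 j : ℕ)) h3
  funext j
  exact Fin.ext (congrFun h4 j)

/-- Conclusion: too many zeros force all coefficients to vanish. -/
theorem final (p : Idx B.m D0 D1 → ℤ) (T S : ℕ)
    (h : ∀ σ : Option (Fin B.m) → ℕ, (∀ i, σ i < T) → ∀ s : ℕ, s < S → B.phi p σ (s : ℂ) = 0)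
    (hT : D1 ≤ T) (hT0 : 0 < T) (hS : D0 * (D1 ^ B.m * D1) * D0 ≤ S) : p = 0 := by
  classical
  by_contra hne
  -- the largest first index of a nonzero coefficient
  obtain ⟨k₁, hk₁⟩ : ∃ k, p k ≠ 0 := by
    by_contra hall
    push Not at hall
    exact hne (funext hall)
  obtain ⟨k₀, hk₀, hmax⟩ := Finset.exists_max_image (univ.filter fun k => p k ≠ 0)
    (fun k => (k.1 : ℕ)) ⟨k₁, by simpa using hk₁⟩
  have hk₀' : p k₀ ≠ 0 := (Finset.mem_filter.1 hk₀).2
  set d := (k₀.1 : ℕ) with hd
  have hmax' : ∀ k, d < (k.1 : ℕ) → p k = 0 := by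
    intro k hk
    by_contra hpk
    have := hmax k (Finset.mem_filter.2 ⟨mem_univ _, hpk⟩)
    omega
  set Θ : Finset ℂ := univ.image (fun k : Idx B.m D0 D1 => B.theta k) with hΘ
  have hΘ0 : ∀ θ ∈ Θ, θ ≠ 0 := by
    intro θ hθ
    obtain ⟨k, _, rfl⟩ := Finset.mem_image.1 hθ
    exact exp_ne_zero _
  have hΘc : Θ.card ≤ D0 * (D1 ^ B.m * D1) := by
    rw [← B.card_Idx, ← Finset.card_univ]
    exact Finset.card_image_le
  -- the polynomials
  let Q : ℕ → ℂ → ℂ[X] := fun σ0 θ =>
    ∑ k ∈ univ.filter (fun k : Idx B.m D0 D1 => B.theta k = θ), C (p k : ℂ) * B.ufac k σ0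
  have hQ0 : ∀ σ0 < D1, ∀ θ ∈ Θ, Q σ0 θ = 0 := by
    intro σ0 hσ0
    refine expsum_eq_zero Θ hΘ0 D0 (Q σ0) (fun θ _ i hi => ?_) fun s hs => ?_
    · simp only [Q]
      rw [finsetSum_coeff]
      refine Finset.sum_eq_zero fun k _ => ?_
      rw [coeff_C_mul, ufac, upoly_coeff_eq_zero _ _ _ _ (lt_of_lt_of_le k.1.2 hi), mul_zero]
    · have hs' : s < S := lt_of_lt_of_le (lt_of_lt_of_le hs (Nat.mul_le_mul_right _ hΘc)) hS
      let σ : Option (Fin B.m) → ℕ := fun i => if i = none then σ0 else 0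
      have h1 := h σ (fun i => by
        simp only [σ]
        split_ifs
        · omega
        · exact hT0) s hs'
      rw [← h1, phi]
      rw [← Finset.sum_fiberwise_of_maps_to (s := univ) (t := Θ)
        (g := fun k : Idx B.m D0 D1 => B.theta k) (fun k _ => Finset.mem_image_of_mem _ (mem_univ k))]
      refine Finset.sum_congr rfl fun θ _ => ?_
      simp only [Q]
      rw [eval_finsetSum, Finset.sum_mul]
      refine Finset.sum_congr rfl fun k hk => ?_
      have hkθ : B.theta k = θ := (Finset.mem_filter.1 hk).2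
      rw [eval_mul, eval_C, ← hkθ]
      have h2 : B.cfac k σ = 1 := by
        unfold cfac
        refine Finset.prod_eq_one fun j _ => ?_
        simp [σ]
      have h3 : exp (B.freq k * s) = B.theta k ^ s := by
        rw [theta, ← exp_nat_mul, mul_comm]
      unfold term
      rw [h2, h3]
      simp only [σ, if_true]
      ring
  -- the Vandermonde argument
  have hD1 : 0 < D1 := k₀.2.2.pos
  set θ₀ := B.theta k₀ with hθ₀
  let v : Fin D1 → ℂ := fun κ => ∑ k ∈ univ.filter (fun k : Idx B.m D0 D1 => B.theta k = θ₀ ∧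
    (k.1 : ℕ) = d ∧ k.2.2 = κ), (p k : ℂ)
  have hv : v = 0 := by
    refine Matrix.eq_zero_of_forall_pow_sum_mul_pow_eq_zero
      (f := fun κ : Fin D1 => ((κ : ℕ) : ℂ) * B.beta0) ?_ ?_
    · intro κ κ' hκ
      have h1 := mul_right_cancel₀ B.b0 hκ
      exact Fin.ext (by exact_mod_cast h1)
    · intro i
      have h1 := hQ0 i i.2 θ₀ (Finset.mem_image_of_mem _ (mem_univ k₀))
      have h2 : (Q i θ₀).coeff d = 0 := by rw [h1, coeff_zero]
      simp only [Q] at h2
      rw [finsetSum_coeff] at h2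
      rw [← h2]
      simp only [v]
      have h3 : ∀ k ∈ univ.filter (fun k : Idx B.m D0 D1 => B.theta k = θ₀),
          (C (p k : ℂ) * B.ufac k i).coeff d =
            if (k.1 : ℕ) = d then (p k : ℂ) * (((k.2.2 : ℕ) : ℂ) * B.beta0) ^ (i : ℕ) else 0 := by
        intro k _
        rw [coeff_C_mul]
        split_ifs with hkd
        · rw [ufac, ← hkd, upoly_coeff_self]
        · rcases lt_or_gt_of_ne hkd with h4 | h4
          · rw [ufac, upoly_coeff_eq_zero _ _ _ _ h4, mul_zero]
          · rw [hmax' k h4]; simp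
      rw [Finset.sum_congr rfl h3, ← Finset.sum_filter, Finset.filter_filter]
      simp only [Finset.sum_mul]
      rw [← Finset.sum_fiberwise_of_maps_to
        (s := univ.filter (fun k : Idx B.m D0 D1 => B.theta k = θ₀ ∧ (k.1 : ℕ) = d))
        (t := (univ : Finset (Fin D1))) (g := fun k => k.2.2) (fun k _ => mem_univ _)]
      refine Finset.sum_congr rfl fun κ _ => ?_
      rw [Finset.filter_filter]
      have h5 : univ.filter (fun k : Idx B.m D0 D1 => (B.theta k = θ₀ ∧ (k.1 : ℕ) = d) ∧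
          k.2.2 = κ) = univ.filter (fun k : Idx B.m D0 D1 => B.theta k = θ₀ ∧ (k.1 : ℕ) = d ∧
          k.2.2 = κ) := by
        ext k; simp only [Finset.mem_filter, and_assoc]
      rw [h5]
      refine Finset.sum_congr rfl fun k hk => ?_
      rw [(Finset.mem_filter.1 hk).2.2.2]
  have h6 := congrFun hv k₀.2.2
  simp only [v, Pi.zero_apply] at h6
  have h7 : univ.filter (fun k : Idx B.m D0 D1 => B.theta k = θ₀ ∧ (k.1 : ℕ) = d ∧
      k.2.2 = k₀.2.2) = {k₀} := by
    ext k
    simp only [Finset.mem_filter, mem_univ, true_and, Finset.mem_singleton]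
    constructor
    · rintro ⟨e1, e2, e3⟩
      have e4 := B.theta_inj e1 e3
      exact Prod.ext (Fin.ext e2) (Prod.ext e4 e3)
    · rintro rfl
      exact ⟨rfl, rfl, rfl⟩
  rw [h7, Finset.sum_singleton] at h6
  exact hk₀' (by exact_mod_cast h6)

end Base

end Pool.Agent.BakerK
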