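import Mathlib
import Pool.Agent.BakerK.Core

set_option autoImplicit false

/-!
Baker's theorem (inhomogeneous form): a linear form `β₀ + β₁ λ₁ + ⋯ + βₙ λₙ` with `β_j` and
`exp λ_j` algebraic and `β₀ ≠ 0` does not vanish.
-/

namespace Pool.Agent.BakerK

open Complex Finset

theorem exists_common_den {K : Type*} [Field K] [NumberField K] {ι : Type*} [Finite ι]
    (z : ι → K) : ∃ Q : ℕ, 0 < Q ∧ ∀ i, IsIntegral ℤ ((Q : K) * z i) := by
  classical
  have := Fintype.ofFinite ι
  have halg : Algebra.IsAlgebraic ℤ K :=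
    (IsFractionRing.comap_isAlgebraic_iff (A := ℤ) (K := ℚ) (C := K)).2 inferInstance
  obtain ⟨y, hy0, hy⟩ := Algebra.IsAlgebraic.exists_integral_multiples ℤ (Finset.univ.image z)
  refine ⟨y.natAbs, Int.natAbs_pos.2 hy0, fun i => ?_⟩
  have h := hy (z i) (Finset.mem_image_of_mem z (Finset.mem_univ i))
  rw [zsmul_eq_mul] at h
  rcases Int.natAbs_eq y with h1 | h1
  · have h2 : ((y : ℤ) : K) = ((y.natAbs : ℕ) : K) := by
      conv_lhs => rw [h1]
      simp
    rwa [h2] at h
  · have h2 : ((y : ℤ) : K) = -((y.natAbs : ℕ) : K) := by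
      conv_lhs => rw [h1]
      simp
    rw [h2, neg_mul] at h
    have := h.neg
    rwa [neg_neg] at this

variable (F : IntermediateField ℚ ℂ)

/-- A vanishing inhomogeneous linear form in `n` logarithms over `F`. -/
structure Rel (n : ℕ) where
  lam : Fin n → ℂ
  beta : Fin n → ℂ
  beta0 : ℂ
  hlam : ∀ j, exp (lam j) ∈ F
  hbeta : ∀ j, beta j ∈ F
  hbeta0 : beta0 ∈ F
  ne : beta0 ≠ 0
  rel : beta0 + ∑ j, beta j * lam j = 0

variable {F} in
/-- Dropping a zero coefficient. -/
theorem Rel.drop {m : ℕ} (R : Rel F (m + 1)) (k : Fin (m + 1)) (hk : R.beta k = 0) :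
    Nonempty (Rel F m) := by
  refine ⟨⟨fun j => R.lam (k.succAbove j), fun j => R.beta (k.succAbove j), R.beta0,
    fun j => R.hlam _, fun j => R.hbeta _, R.hbeta0, R.ne, ?_⟩⟩
  have := R.rel
  rw [Fin.sum_univ_succAbove _ k, hk, zero_mul, zero_add] at this
  exact this

variable {F} in
/-- Using an integer relation between the logarithms. -/
theorem Rel.dep {m : ℕ} (R : Rel F (m + 1)) (c : Fin (m + 1) → ℤ) (k : Fin (m + 1)) (hk : c k ≠ 0)
    (hc : ∑ j, (c j : ℂ) * R.lam j = 0) : Nonempty (Rel F m) := by
  have hk' : (c k : ℂ) ≠ 0 := by exact_mod_cast hk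
  have hcm : ∀ j, (c j : ℂ) ∈ F := fun j => intCast_mem F (c j)
  refine ⟨⟨fun j => R.lam (k.succAbove j),
    fun j => R.beta (k.succAbove j) - R.beta k * (c (k.succAbove j) : ℂ) / (c k : ℂ), R.beta0,
    fun j => R.hlam _, fun j => F.sub_mem (R.hbeta _)
      (F.div_mem (F.mul_mem (R.hbeta _) (hcm _)) (hcm _)), R.hbeta0, R.ne, ?_⟩⟩
  have h1 := R.rel
  rw [Fin.sum_univ_succAbove _ k] at h1 hc
  have h2 : ∑ j : Fin m, (R.beta (k.succAbove j) - R.beta k * (c (k.succAbove j) : ℂ) / (c k : ℂ)) *
      R.lam (k.succAbove j) = ∑ j : Fin m, R.beta (k.succAbove j) * R.lam (k.succAbove j) -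
      R.beta k / (c k : ℂ) * ∑ j : Fin m, (c (k.succAbove j) : ℂ) * R.lam (k.succAbove j) := by
    rw [Finset.mul_sum, ← Finset.sum_sub_distrib]
    refine Finset.sum_congr rfl fun j _ => ?_
    ring
  have h3 : ∑ j : Fin m, (c (k.succAbove j) : ℂ) * R.lam (k.succAbove j) =
      -((c k : ℂ) * R.lam k) := by linear_combination hc
  rw [h2, h3]
  have h4 : R.beta k / (c k : ℂ) * -((c k : ℂ) * R.lam k) = -(R.beta k * R.lam k) := by
    field_simp
  rw [h4]
  linear_combination h1

variable {F} in
/-- Eliminating the index `k`: if the other numbers are multiplicatively independent we get a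
`Data`, hence a contradiction. -/
theorem Rel.elim [FiniteDimensional ℚ F] {m : ℕ} (R : Rel F (m + 1)) (k : Fin (m + 1))
    (hk : R.beta k ≠ 0)
    (hind : ∀ e f : Fin m → ℕ, ∏ j, exp (R.lam (k.succAbove j)) ^ e j =
      ∏ j, exp (R.lam (k.succAbove j)) ^ f j → e = f) : False := by
  have : NumberField F := ⟨⟩
  obtain ⟨a, ha, ha'⟩ := exists_common_den (K := F)
    (fun j => (⟨exp (R.lam j), R.hlam j⟩ : F))
  have hm : ∀ j : Option (Fin m), (match j with
      | none => -R.beta0 / R.beta k
      | some j => -R.beta (k.succAbove j) / R.beta k : ℂ) ∈ F := by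
    intro j
    cases j with
    | none => exact F.div_mem (F.neg_mem R.hbeta0) (R.hbeta _)
    | some j => exact F.div_mem (F.neg_mem (R.hbeta _)) (R.hbeta _)
  obtain ⟨b, hb, hb'⟩ := exists_common_den (K := F)
    (fun j : Option (Fin m) => (⟨_, hm j⟩ : F))
  refine Data.elim (F := F) (φ := (algebraMap F ℂ))
    { m := m
      lam := fun j => R.lam (k.succAbove j)
      mu := R.lam k
      beta := fun j => -R.beta (k.succAbove j) / R.beta k
      beta0 := -R.beta0 / R.beta k
      a := a
      b := b
      ha := ha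
      hb := hb
      be := fun j => ⟨_, hm (some j)⟩
      be0 := ⟨_, hm none⟩
      al := fun j => ⟨exp (R.lam (k.succAbove j)), R.hlam _⟩
      am := ⟨exp (R.lam k), R.hlam _⟩
      hal := fun j => rfl
      ham := rfl
      hbe := fun j => rfl
      hbe0 := rfl
      ial := fun j => ha' _
      iam := ha' _
      ibe := fun j => hb' (some j)
      ibe0 := hb' none
      rel := ?_
      b0 := div_ne_zero (neg_ne_zero.2 R.ne) hk
      indep := hind }
  have h1 := R.rel
  rw [Fin.sum_univ_succAbove _ k] at h1
  have h2 : ∑ j : Fin m, -R.beta (k.succAbove j) / R.beta k * R.lam (k.succAbove j) =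
      -(1 / R.beta k) * ∑ j : Fin m, R.beta (k.succAbove j) * R.lam (k.succAbove j) := by
    rw [Finset.mul_sum]
    refine Finset.sum_congr rfl fun j _ => ?_
    ring
  rw [h2]
  field_simp
  linear_combination h1

theorem exp_prod_pow {m : ℕ} (lam : Fin m → ℂ) (e : Fin m → ℕ) :
    ∏ j, exp (lam j) ^ e j = exp (∑ j, (e j : ℂ) * lam j) := by
  rw [exp_sum]
  exact Finset.prod_congr rfl fun j _ => (exp_nat_mul _ _).symm

/-- There is no vanishing inhomogeneous linear form. -/
theorem not_rel [FiniteDimensional ℚ F] (n : ℕ) : IsEmpty (Rel F n) := by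
  induction n with
  | zero =>
    refine ⟨fun R => R.ne ?_⟩
    have := R.rel
    simpa using this
  | succ m ih =>
    -- integer independence of the logarithms in any relation of length `m + 1`
    have hA : ∀ (R : Rel F (m + 1)) (c : Fin (m + 1) → ℤ), ∑ j, (c j : ℂ) * R.lam j = 0 → c = 0 := by
      intro R c hc
      by_contra hne
      obtain ⟨k, hk⟩ : ∃ k, c k ≠ 0 := by
        by_contra hall
        push Not at hall
        exact hne (funext hall)
      obtain ⟨R'⟩ := R.dep c k hk hc
      exact ih.false R'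
    have hB : ∀ (R : Rel F (m + 1)) (k : Fin (m + 1)), R.beta k ≠ 0 := by
      intro R k hk
      obtain ⟨R'⟩ := R.drop k hk
      exact ih.false R'
    refine ⟨fun R => ?_⟩
    by_cases hind : ∀ e f : Fin m → ℕ, ∏ j, exp (R.lam ((Fin.last m).succAbove j)) ^ e j =
      ∏ j, exp (R.lam ((Fin.last m).succAbove j)) ^ f j → e = f
    · exact R.elim (Fin.last m) (hB R _) hind
    · push Not at hind
      obtain ⟨e, f, hef, hne⟩ := hind
      obtain ⟨j₀, hj₀⟩ : ∃ j, e j ≠ f j := by
        by_contra hall
        push Not at hall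
        exact hne (funext hall)
      rw [exp_prod_pow, exp_prod_pow, exp_eq_exp_iff_exists_int] at hef
      obtain ⟨N, hN⟩ := hef
      set i₀ := (Fin.last m).succAbove j₀ with hi₀
      -- the extended coefficient vector
      set c : Fin (m + 1) → ℤ := fun i => Fin.lastCases (motive := fun _ => ℤ) 0
        (fun j => (e j : ℤ) - (f j : ℤ)) i with hc
      have hcl : c (Fin.last m) = 0 := by simp [hc]
      have hcj : ∀ j : Fin m, c ((Fin.last m).succAbove j) = (e j : ℤ) - f j := by
        intro j
        rw [Fin.succAbove_last]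
        simp [hc]
      have hc0 : c i₀ ≠ 0 := by
        rw [hi₀, hcj]
        intro h
        apply hj₀
        omega
      have hc0' : (c i₀ : ℂ) ≠ 0 := by exact_mod_cast hc0
      have hsum : ∑ j, (c j : ℂ) * R.lam j = N * (2 * Real.pi * I) := by
        rw [Fin.sum_univ_succAbove _ (Fin.last m), hcl]
        simp only [hcj]
        have h1 : ∑ j : Fin m, (((e j : ℤ) - (f j : ℤ) : ℤ) : ℂ) *
            R.lam ((Fin.last m).succAbove j) =
            ∑ j : Fin m, (e j : ℂ) * R.lam ((Fin.last m).succAbove j) -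
            ∑ j : Fin m, (f j : ℂ) * R.lam ((Fin.last m).succAbove j) := by
          rw [← Finset.sum_sub_distrib]
          refine Finset.sum_congr rfl fun j _ => ?_
          push_cast; ring
        rw [h1]
        push_cast
        linear_combination hN
      -- the new relation, with `2πi` in place of `lam i₀`
      have hcm : ∀ j, (c j : ℂ) ∈ F := fun j => intCast_mem F (c j)
      have hNm : (N : ℂ) ∈ F := intCast_mem F N
      let R' : Rel F (m + 1) :=
        { lam := Function.update R.lam i₀ (2 * Real.pi * I)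
          beta := Function.update (fun j => R.beta j - R.beta i₀ * (c j : ℂ) / (c i₀ : ℂ)) i₀
            (R.beta i₀ * N / (c i₀ : ℂ))
          beta0 := R.beta0
          hlam := by
            intro j
            by_cases hj : j = i₀
            · rw [hj, Function.update_self, exp_two_pi_mul_I]
              exact F.one_mem
            · rw [Function.update_of_ne hj]; exact R.hlam j
          hbeta := by
            intro j
            by_cases hj : j = i₀
            · rw [hj, Function.update_self]
              exact F.div_mem (F.mul_mem (R.hbeta _) hNm) (hcm _)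
            · rw [Function.update_of_ne hj]
              exact F.sub_mem (R.hbeta _) (F.div_mem (F.mul_mem (R.hbeta _) (hcm _)) (hcm _))
          hbeta0 := R.hbeta0
          ne := R.ne
          rel := by
            have h1 := R.rel
            rw [Fin.sum_univ_succAbove _ i₀] at h1 hsum ⊢
            simp only [Function.update_self, Function.update_of_ne (Fin.succAbove_ne i₀ _)]
            have h2 : ∑ j : Fin m, (R.beta (i₀.succAbove j) -
                R.beta i₀ * (c (i₀.succAbove j) : ℂ) / (c i₀ : ℂ)) * R.lam (i₀.succAbove j) =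
                ∑ j : Fin m, R.beta (i₀.succAbove j) * R.lam (i₀.succAbove j) -
                R.beta i₀ / (c i₀ : ℂ) *
                  ∑ j : Fin m, (c (i₀.succAbove j) : ℂ) * R.lam (i₀.succAbove j) := by
              rw [Finset.mul_sum, ← Finset.sum_sub_distrib]
              refine Finset.sum_congr rfl fun j _ => ?_
              ring
            have h3 : ∑ j : Fin m, (c (i₀.succAbove j) : ℂ) * R.lam (i₀.succAbove j) =
                N * (2 * Real.pi * I) - (c i₀ : ℂ) * R.lam i₀ := by linear_combination hsum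
            rw [h2, h3]
            have h4 : R.beta i₀ / (c i₀ : ℂ) * (N * (2 * Real.pi * I) - (c i₀ : ℂ) * R.lam i₀) =
                R.beta i₀ * N / (c i₀ : ℂ) * (2 * Real.pi * I) - R.beta i₀ * R.lam i₀ := by
              field_simp
            rw [h4]
            linear_combination h1 }
      refine R'.elim i₀ (hB R' i₀) fun e' f' hef' => ?_
      rw [exp_prod_pow, exp_prod_pow, exp_eq_exp_iff_exists_int] at hef'
      obtain ⟨N', hN'⟩ := hef'
      have h5 := hA R' (fun i => if h : i = i₀ then -N' else
        (e' ((finSuccAboveEquiv i₀).symm ⟨i, h⟩) : ℤ) - f' ((finSuccAboveEquiv i₀).symm ⟨i, h⟩)) ?_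
      · funext j
        have h6 := congrFun h5 (i₀.succAbove j)
        simp only [Fin.succAbove_ne, dif_neg, not_false_eq_true, Pi.zero_apply] at h6
        have h7 : (finSuccAboveEquiv i₀).symm ⟨i₀.succAbove j, Fin.succAbove_ne i₀ j⟩ = j := by
          rw [Equiv.symm_apply_eq]
          rfl
        rw [h7] at h6
        omega
      · rw [Fin.sum_univ_succAbove _ i₀]
        have h8 : R'.lam i₀ = 2 * Real.pi * I := Function.update_self _ _ _
        simp only [dif_pos, Fin.succAbove_ne, dif_neg, not_false_eq_true, h8]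
        have h7 : ∀ j, (finSuccAboveEquiv i₀).symm ⟨i₀.succAbove j, Fin.succAbove_ne i₀ j⟩ = j := by
          intro j
          rw [Equiv.symm_apply_eq]
          rfl
        simp only [h7]
        have h9 : ∑ j : Fin m, (((e' j : ℤ) - (f' j : ℤ) : ℤ) : ℂ) * R'.lam (i₀.succAbove j) =
            ∑ j : Fin m, (e' j : ℂ) * R'.lam (i₀.succAbove j) -
            ∑ j : Fin m, (f' j : ℂ) * R'.lam (i₀.succAbove j) := by
          rw [← Finset.sum_sub_distrib]
          refine Finset.sum_congr rfl fun j _ => ?_
          push_cast; ring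
        rw [h9]
        push_cast
        linear_combination hN'

/-- **Baker's theorem**, inhomogeneous form. -/
theorem baker {ι : Type*} [Fintype ι] (lam beta : ι → ℂ) (beta0 : ℂ)
    (hlam : ∀ j, IsAlgebraic ℚ (exp (lam j))) (hbeta : ∀ j, IsAlgebraic ℚ (beta j))
    (hbeta0 : IsAlgebraic ℚ beta0) (h0 : beta0 ≠ 0) : beta0 + ∑ j, beta j * lam j ≠ 0 := by
  intro h
  let S : Set ℂ := insert beta0 (Set.range (fun j => exp (lam j)) ∪ Set.range beta)
  have hSfin : Finite S := by
    have : S.Finite := ((Set.finite_range _).union (Set.finite_range _)).insert _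
    exact this
  have hSalg : ∀ x ∈ S, IsIntegral ℚ x := by
    intro x hx
    rcases hx with rfl | ⟨j, rfl⟩ | ⟨j, rfl⟩
    · exact hbeta0.isIntegral
    · exact (hlam j).isIntegral
    · exact (hbeta j).isIntegral
  let F : IntermediateField ℚ ℂ := IntermediateField.adjoin ℚ S
  have : FiniteDimensional ℚ F := IntermediateField.finiteDimensional_adjoin hSalg
  have hSF : S ⊆ F := IntermediateField.subset_adjoin ℚ S
  let e := Fintype.equivFin ι
  refine (not_rel F (Fintype.card ι)).false ⟨fun j => lam (e.symm j), fun j => beta (e.symm j),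
    beta0, fun j => hSF (Or.inr (Or.inl ⟨_, rfl⟩)), fun j => hSF (Or.inr (Or.inr ⟨_, rfl⟩)),
    hSF (Or.inl rfl), h0, ?_⟩
  rw [← h]
  congr 1
  exact Equiv.sum_comp e.symm (fun j => beta j * lam j)

theorem isAlgebraic_ofReal {x : ℝ} (h : IsAlgebraic ℚ x) : IsAlgebraic ℚ (x : ℂ) := by
  have := h.algebraMap (A := ℂ)
  exact this

/-- The case needed for the five numbers: `π + e` and `e^e` are not both algebraic. -/
theorem ad_alg_false (hA : IsAlgebraic ℚ (Real.pi + Real.exp 1))
    (hD : IsAlgebraic ℚ (Real.exp (Real.exp 1))) : False := by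
  have hI : IsAlgebraic ℚ I := by
    refine ⟨Polynomial.X ^ 2 + 1, ?_, ?_⟩
    · intro h
      have := congrArg (Polynomial.eval 0) h
      simp at this
    · simp
  refine baker (ι := Fin 2) ![((Real.exp 1 : ℝ) : ℂ), (Real.pi : ℂ) * I] ![1, -I]
    (-((Real.pi + Real.exp 1 : ℝ) : ℂ)) ?_ ?_ ?_ ?_ ?_
  · intro j
    fin_cases j
    · change IsAlgebraic ℚ (exp ((Real.exp 1 : ℝ) : ℂ))
      rw [← Complex.ofReal_exp]
      exact isAlgebraic_ofReal hD
    · change IsAlgebraic ℚ (exp ((Real.pi : ℂ) * I))
      rw [exp_pi_mul_I]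
      exact isAlgebraic_one.neg
  · intro j
    fin_cases j
    · exact isAlgebraic_one
    · exact hI.neg
  · exact (isAlgebraic_ofReal hA).neg
  · have hr : (0 : ℝ) < Real.pi + Real.exp 1 := by positivity
    exact neg_ne_zero.2 (by exact_mod_cast hr.ne')
  · simp only [Fin.sum_univ_two, Matrix.cons_val_zero, Matrix.cons_val_one]
    push_cast
    linear_combination (-(Real.pi : ℂ)) * I_sq

end Pool.Agent.BakerK
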